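import Pool.Agent.Y174.L4
import Pool.Agent.V11168.Rel.PairDim

/-!
# Multivalued logarithmic 1-forms and nonvanishing for log canonical pairs

Let `(X, Δ)` be a log canonical pair over `ℂ`, `X` projective of dimension `d + r`, with function field
`K`. `Δ` is given by its multiplicities `δ v = max (0, -a (v, X, Δ))` along all prime divisors `v` over
`X`, where `a (v, X, Δ)` is the discrepancy; they are at most `1`. Then `h⁰ (⌊m (K_X + Δ)⌋)` is the
dimension of the space of the `m`-fold pluricanonical forms on the function field with pole order at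
most `m δ v` at all `v` (`PairSec`).

A multivalued 1-form on `X` is a `K`-linear map `ω` from the rational vector fields to the algebraic
closure of `K`. It is logarithmic (`MultiLog`) if along each prime divisor `v` over `X` its values on the
vector fields which are regular along `v`, and tangent to `v` if `δ v = 1`, are integral over the local
ring of `v`. For example, a symmetric differential of degree `m` with logarithmic poles which splits, on
some cover, into a product of 1-forms: its factors, normalised.

Let `α 1, ..., α d` be rational 1-forms, linearly independent over `K`, and `a ≠ 0` a rational function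
such that `a (α 1 ∧ ... ∧ α d) ^ m` is a section of the `m`-th power of the sheaf of logarithmic
`d`-forms, twisted by `m Δ` (`TensorLog`). For example `d = 0`; or the `α j` are the pull-backs of
1-forms for a rational map `X → B`, `dim B = d`, and the tensor is the pull-back of a section of
`m (K_B + Δ_B)`; or the `α j` define a foliation, and the tensor is a section of a power of the
determinant of its conormal sheaf.

It is assumed that no rational vector field on `X` is killed by the `α j` and by all the `ω i`.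
-/

set_option autoImplicit false

open FF IntermediateField Pool.Agent.W619.PQ Pool.Agent.W619.TW Pool.Agent.W619.Y Pool.Agent.Y174
  Pool.Agent.V11168.Rel

namespace Pool.Agent.Results.MP_66b48b_ag.MultivaluedLogForms

/-- `κ (K_X + Δ) = ν (K_X + Δ) = a`: for some `m ≥ 1` there are `h + 1` sections of `m (K_X + Δ)` whose
`h` ratios are algebraically independent (`PairKod`) exactly for `h ≤ a`; and for every divisor `A`
there is `C` with `h⁰ (m (K_X + Δ) + A) ≤ C m ^ h` for all `m ≥ 1` (`PairNum`) exactly for `h ≥ a`. -/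
def HasAbundance (k K : Type) [Field k] [Field K] [Algebra k K] (n : ℕ) (δ : Place k K → ℝ)
    (a : ℕ) : Prop :=
  ∀ h, (PairKod k K n δ h ↔ h ≤ a) ∧ (PairNum k K n δ h ↔ a ≤ h)

/-- **Theorem.** Let `(X, Δ)`, the `α j`, `a` and the multivalued logarithmic 1-forms `ω i` be as above.
Then `κ (K_X + Δ) ≥ 0`. Moreover there is a finite Galois cover `Z` of `X`, with function field `L`, and
`r` rational 1-forms on `Z`, regular except for logarithmic poles over the prime divisors `v` with
`δ v = 1`, which together with the `α j` are linearly independent, such that for the pair `(Z, Δ_Z)`,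
`Δ_Z` the effective part of the pull-back of `K_X + Δ` minus `K_Z` (multiplicities
`max (0, 1 - e (1 - δ v))`, `e` the ramification index): `κ (K_X + Δ) = κ (K_Z + Δ_Z)` and
`ν (K_X + Δ) ≤ ν (K_Z + Δ_Z)`. So if `κ = ν` holds for `(Z, Δ_Z)`, then it holds for `(X, Δ)`. -/
theorem result {K : Type} [Field K] [Algebra ℂ K] [Algebra.EssFiniteType ℂ K] {d r m s : ℕ}
    (hn : Algebra.trdeg ℂ K = (d + r : ℕ)) (hm : 1 ≤ m)
    {δ : Place ℂ K → ℝ} (hδ0 : ∀ v, 0 ≤ δ v) (hδ1 : ∀ v, δ v ≤ 1)
    -- the tensor
    (α : Fin d → Derivation ℂ K K →ₗ[K] K) (hα : LinearIndependent K α) (a : K)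
    (ha : a ≠ 0) (hT : TensorLog (d + r) m (fun v => δ v = 1) δ α a)
    -- the multivalued forms
    (ω : Fin s → Derivation ℂ K K →ₗ[K] AlgebraicClosure K)
    (hreg : ∀ i, MultiLog (d + r) (fun v => δ v = 1) (ω i))
    (hker : ∀ D : Derivation ℂ K K, (∀ l, α l D = 0) → (∀ i, ω i D = 0) → D = 0) :
    PairKod ℂ K (d + r) δ 0 ∧
    ∃ L : IntermediateField K (AlgebraicClosure K), FiniteDimensional K L ∧ IsGalois K L ∧
      (∃ (α' : Fin d → (Derivation ℂ L L →ₗ[L] L)) (η : Fin r → (Derivation ℂ L L →ₗ[L] L)),
        (∀ l, IsPullForm (α l) (α' l)) ∧ LinearIndependent L (Fin.append α' η) ∧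
        ∀ i, ∀ w : Place ℂ L, IsDivisorial w (d + r) → ∀ D : Derivation ℂ L L,
          LogFld (BdOn fun v : Place ℂ K => δ v = 1) w D → w.Reg (η i D)) ∧
      ∀ δ' : Place ℂ L → ℝ, IsPull δ δ' →
        (∀ h, PairKod ℂ K (d + r) δ h ↔ PairKod ℂ L (d + r) δ' h) ∧
        (∀ h, PairNum ℂ L (d + r) δ' h → PairNum ℂ K (d + r) δ h) ∧
        ∀ b, HasAbundance ℂ L (d + r) δ' b → HasAbundance ℂ K (d + r) δ b := by
  have _ := hδ1
  obtain ⟨L, h1, h2, h3, h4, h5⟩ := main_L2 ‹Algebra.EssFiniteType ℂ K› hn hm
    (fun v => δ v = 1) δ hδ0 (fun _ h => h) α hα a ha hT ω hreg hker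
  refine ⟨h4, L, h1, h2, h3, fun δ' hδ' => ?_⟩
  obtain ⟨h6, h7⟩ := h5 δ' hδ'
  refine ⟨h6, h7, fun b hb h => ?_⟩
  have h8 : PairKod ℂ K (d + r) δ b := (h6 b).2 ((hb b).1.2 le_rfl)
  have h9 : PairNum ℂ K (d + r) δ b := h7 b ((hb b).2.2 le_rfl)
  exact ⟨⟨fun h10 => pair_le h10 h9, fun h10 => pairKod_mono h10 h8⟩,
    ⟨fun h10 => pair_le h8 h10, fun h10 => pairNum_mono h10 h9⟩⟩

end Pool.Agent.Results.MP_66b48b_ag.MultivaluedLogForms
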